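import Mathlib
import Pool.Agent.Lib.MP_511249_co.Bounds

/-!
# The difference `i_h - i_bn` is arbitrarily large
-/

namespace Pool.Agent.Results.MP_511249_co.ArbitraryDifference

open Pool.Agent.Lib.MP_511249_co

/-- For every `k` there is a finite connected graph `G` with `i_h(G) - i_bn(G) ≥ k`. -/
theorem result (k : ℕ) :
    ∃ (V : Type) (_ : Fintype V) (G : SimpleGraph V), G.Connected ∧ ibn G + k ≤ ih G := by
  classical
  -- parameters
  obtain ⟨n, hn⟩ : ∃ n, n = 2 * k + 1 := ⟨_, rfl⟩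
  obtain ⟨K, hK⟩ : ∃ K, K = 3 * n := ⟨_, rfl⟩
  obtain ⟨r, hr⟩ : ∃ r, r = 3 * K + 2 := ⟨_, rfl⟩
  obtain ⟨M, hM⟩ : ∃ M, M = r * K + K := ⟨_, rfl⟩
  have hn0 : 0 < n := by omega
  have hK0 : 0 < K := by omega
  have hr0 : 0 < r := by omega
  refine ⟨W K M r, inferInstance, SG K M r, sg_connected hr0 hK0, ?_⟩
  have hcard := card_W_gt (K := K) (M := M) (r := r) hr0 hK0
  -- upper bound
  have hub : ibn (SG K M r) ≤ r * K + n := by
    unfold ibn
    apply Nat.sInf_le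
    exact ⟨f0, f0_maximal n hn0 hK hr0, (cost_f0 n hK).symm⟩
  -- lower bound
  have hne : {c : ℕ | ∃ f : W K M r → ℕ, IsMaximalWith (SG K M r) (HIndep (SG K M r)) f ∧
      c = ∑ v, f v}.Nonempty := by
    obtain ⟨f, hf⟩ := exists_maximal_h (SG K M r) (by omega)
    exact ⟨_, f, hf, rfl⟩
  obtain ⟨f, hf, hc⟩ := Nat.sInf_mem hne
  have hlb := lower_bound hr0 hK0 hr.ge hM.ge hf
  have hih : ih (SG K M r) = ∑ v, f v := hc
  rw [hih]
  omega

end Pool.Agent.Results.MP_511249_co.ArbitraryDifference
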